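import Pool.Agent.Q147.TG.Pairs
import Pool.Agent.H340R2.LW2

/-!
# The numbers `e ^ (e ^ β)`, `β` algebraic, over fields of transcendence degree one

`e ^ e` is the case `β = 0`, `i = 1` of `e ^ (e ^ (β + i))`.  Let `K` be a field of complex numbers of
transcendence degree at most one over `ℚ`, for instance `K = ℚ` or `K = ℚ(e)`.

(1) Let `y_1, y_2, y_3` be complex numbers, linearly independent over `ℚ`.  At most six algebraic
numbers `δ` are such that all three numbers `e ^ (y_p e ^ δ)` are algebraic over `K`.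

(2) In particular, if `β_1, β_2, β_3` are different algebraic numbers and `α ≠ 0` is algebraic then for all
algebraic numbers `δ` with at most six exceptions one of the numbers `e ^ (e ^ (β_p + δ))` is
algebraically independent of `e ^ α`.

(3) Let `s ≠ 0` and let `F` be ANY finite set of algebraic numbers.  If `B` is the set of the `β` in `F`
for which `e ^ (s e ^ β)` is algebraic over `K` then `|B| (|B| - 1) (|B| - 2) ≤ 6 |F - F| ^ 2`.  So if `F`
has small difference set, at most about `|F| ^ (2 / 3)` members are exceptional.  No number field and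
no finitely generated group has to be given in advance, and the bound does not depend on `K` and `s`.

(4) For all but `4 |F| + (48 |F| ^ 3 |F - F| ^ 2) ^ (1 / 3)` of the `|F| ^ 2` pairs `(β, β')` the numbers
`e ^ (s e ^ β)` and `e ^ (s' e ^ β')` are algebraically independent.

The proof.  By the theorem of Lindemann and Weierstrass the numbers `e ^ δ` are linearly independent for
different algebraic `δ`.  By the linear subgroup theorem in transcendence degree one (starting library)
seven times three exponentials `e ^ (x_j y_p)` of linearly independent numbers are not all algebraic over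
`ℚ(θ)`.  For (3) one counts the triples of exceptional members up to translation.
-/

set_option autoImplicit false

namespace Pool.Agent.Results.MP_58ae59_nt.AlgebraicShifts

open Pool.Agent.W243.TD (Al exists_theta al_trans)
open Pool.Agent.H340R2

/-- algebraic over the rational numbers -/
abbrev Alg (z : ℂ) : Prop := IsAlgebraic ℚ z

theorem li_exp {n : ℕ} (β : Fin n → ℂ) (hβ : ∀ i, Alg (β i)) (hinj : Function.Injective β) :
    LinearIndependent ℚ (fun i => Complex.exp (β i)) := by
  rw [Fintype.linearIndependent_iff]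
  intro c hc i
  have h1 := LW.lindemann_weierstrass (Finset.univ : Finset (Fin n)) β (fun i => (c i : ℂ))
    (fun i _ => hβ i) (fun i _ => by
      have := isAlgebraic_algebraMap (R := ℚ) (A := ℂ) (c i)
      simpa using this) hinj.injOn (by
      rw [← hc]
      exact Finset.sum_congr rfl fun i _ => by rw [Rat.smul_def]) i (Finset.mem_univ i)
  exact_mod_cast h1

/-- three multipliers -/
theorem three {θ : ℂ} (hθ : Transcendental ℚ θ) (y : Fin 3 → ℂ) (hy : LinearIndependent ℚ y) :
    {δ : ℂ | Alg δ ∧ ∀ p, Al θ (Complex.exp (y p * Complex.exp δ))}.encard ≤ 6 := by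
  by_contra hcon
  push Not at hcon
  have h3 : ((7 : ℕ) : ℕ∞) ≤
      {δ : ℂ | Alg δ ∧ ∀ p, Al θ (Complex.exp (y p * Complex.exp δ))}.encard := by
    have := Order.add_one_le_of_lt hcon
    exact_mod_cast this
  obtain ⟨t, ht, ht3⟩ := Set.exists_subset_encard_eq h3
  have hfin : t.Finite := Set.finite_of_encard_eq_coe ht3
  have hcard : hfin.toFinset.card = 7 := by
    rw [hfin.encard_eq_coe_toFinset_card] at ht3
    exact_mod_cast ht3
  let e := hfin.toFinset.equivFinOfCardEq hcard
  let x : Fin 7 → ℂ := fun j => ((e.symm j : hfin.toFinset) : ℂ)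
  have hx : ∀ j, x j ∈ t := fun j => hfin.mem_toFinset.1 (e.symm j).2
  have hinj : Function.Injective x := fun i j h => e.symm.injective (Subtype.ext h)
  refine Pool.Agent.Q213.PT.no73 hθ (fun j => Complex.exp (x j)) y
    (li_exp x (fun j => (ht (hx j)).1) hinj) hy fun j p => ?_
  rw [mul_comm]
  exact (ht (hx j)).2 p

theorem three_field (K : IntermediateField ℚ ℂ) (hK : Algebra.trdeg ℚ K ≤ 1) (y : Fin 3 → ℂ)
    (hy : LinearIndependent ℚ y) :
    {δ : ℂ | Alg δ ∧ ∀ p, IsAlgebraic K (Complex.exp (y p * Complex.exp δ))}.encard ≤ 6 := by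
  obtain ⟨θ, hθ, hal⟩ := exists_theta K hK
  refine le_trans (Set.encard_le_encard ?_) (three hθ y hy)
  rintro δ ⟨h1, h2⟩
  exact ⟨h1, fun p => al_trans hal (h2 p)⟩

/-- triples up to translation -/
theorem triples {θ : ℂ} (hθ : Transcendental ℚ θ) {s : ℂ} (hs : s ≠ 0) (F B : Finset ℂ)
    (hF : ∀ β ∈ F, Alg β) (hBF : B ⊆ F) (hB : ∀ β ∈ B, Al θ (Complex.exp (s * Complex.exp β))) :
    B.card * (B.card - 1) * (B.card - 2) ≤
      6 * ((F ×ˢ F).image fun p => p.2 - p.1).card ^ 2 := by
  classical
  set D := (F ×ˢ F).image fun p : ℂ × ℂ => p.2 - p.1 with hD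
  -- the triples of different members
  let T : Finset (ℂ × ℂ × ℂ) := (B ×ˢ B ×ˢ B).filter fun p => p.1 ≠ p.2.1 ∧ p.1 ≠ p.2.2 ∧
    p.2.1 ≠ p.2.2
  have hT : B.card * (B.card - 1) * (B.card - 2) ≤ T.card := by
    have h1 : ∀ b ∈ B, (B.card - 1) * (B.card - 2) ≤ (T.filter fun p => p.1 = b).card := by
      intro b hb
      have h2 : ((B.erase b).offDiag).card = (B.card - 1) * (B.card - 2) := by
        rw [Finset.offDiag_card, Finset.card_erase_of_mem hb]
        obtain ⟨n, hn⟩ : ∃ n, B.card = n + 1 := ⟨B.card - 1, by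
          have := Finset.card_pos.2 ⟨b, hb⟩
          omega⟩
        rw [hn, Nat.add_sub_cancel]
        rcases n with _ | n
        · rfl
        · have e1 : n + 1 + 1 - 2 = n := by omega
          rw [e1, Nat.mul_add, Nat.mul_one, Nat.add_sub_cancel]
      rw [← h2]
      refine Finset.card_le_card_of_injOn (fun q => (b, q)) ?_ fun q _ q' _ h => (Prod.ext_iff.1 h).2
      intro q hq
      rw [Finset.mem_coe, Finset.mem_offDiag, Finset.mem_erase, Finset.mem_erase] at hq
      rw [Finset.mem_coe, Finset.mem_filter, Finset.mem_filter]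
      refine ⟨⟨Finset.mem_product.2 ⟨hb, Finset.mem_product.2 ⟨hq.1.2, hq.2.1.2⟩⟩,
        hq.1.1.symm, hq.2.1.1.symm, hq.2.2⟩, rfl⟩
    have h4 : T.card = ∑ b ∈ B, (T.filter fun p => p.1 = b).card :=
      Finset.card_eq_sum_card_fiberwise (f := fun p => p.1) (t := B) (fun p hp =>
        (Finset.mem_product.1 (Finset.mem_filter.1 (Finset.mem_coe.1 hp)).1).1)
    have h3 := Finset.sum_le_sum h1
    rw [Finset.sum_const, smul_eq_mul, ← mul_assoc] at h3
    rw [h4]
    exact h3
  refine hT.trans ?_
  have himg : T.image (fun p => (p.2.1 - p.1, p.2.2 - p.1)) ⊆ D ×ˢ D := by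
    intro q hq
    obtain ⟨p, hp, rfl⟩ := Finset.mem_image.1 hq
    have h1 := Finset.mem_product.1 (Finset.mem_filter.1 hp).1
    have h2 := Finset.mem_product.1 h1.2
    exact Finset.mem_product.2 ⟨Finset.mem_image.2 ⟨(p.1, p.2.1), Finset.mem_product.2
      ⟨hBF h1.1, hBF h2.1⟩, rfl⟩, Finset.mem_image.2 ⟨(p.1, p.2.2), Finset.mem_product.2
      ⟨hBF h1.1, hBF h2.2⟩, rfl⟩⟩
  have hfib : ∀ q ∈ T.image (fun p => (p.2.1 - p.1, p.2.2 - p.1)),
      (T.filter fun p => (p.2.1 - p.1, p.2.2 - p.1) = q).card ≤ 6 := by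
    intro q hq
    obtain ⟨p₀, hp₀, rfl⟩ := Finset.mem_image.1 hq
    obtain ⟨hp₁, hne1, hne2, hne3⟩ := Finset.mem_filter.1 hp₀
    have hm1 := Finset.mem_product.1 hp₁
    have hm2 := Finset.mem_product.1 hm1.2
    let d : Fin 3 → ℂ := ![0, p₀.2.1 - p₀.1, p₀.2.2 - p₀.1]
    have hd : ∀ i, Alg (d i) := by
      intro i
      fin_cases i
      · exact isAlgebraic_zero
      · exact (hF _ (hBF hm2.1)).sub (hF _ (hBF hm1.1))
      · exact (hF _ (hBF hm2.2)).sub (hF _ (hBF hm1.1))
    have hdinj : Function.Injective d := by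
      intro i j h
      fin_cases i <;> fin_cases j
      · rfl
      · exact absurd (sub_eq_zero.1 h.symm).symm hne1
      · exact absurd (sub_eq_zero.1 h.symm).symm hne2
      · exact absurd (sub_eq_zero.1 h).symm hne1
      · rfl
      · exact absurd (sub_left_injective h) hne3
      · exact absurd (sub_eq_zero.1 h).symm hne2
      · exact absurd (sub_left_injective h).symm hne3
      · rfl
    have hy : LinearIndependent ℚ (fun i => s * Complex.exp (d i)) :=
      (li_exp d hd hdinj).map' (LinearMap.mulLeft ℚ s)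
        (LinearMap.ker_eq_bot.2 (mul_right_injective₀ hs))
    have h6 := three hθ _ hy
    have hinj : Set.InjOn (fun p : ℂ × ℂ × ℂ => p.1)
        ((T.filter fun p => (p.2.1 - p.1, p.2.2 - p.1) = (p₀.2.1 - p₀.1, p₀.2.2 - p₀.1)) :
          Set (ℂ × ℂ × ℂ)) := by
      intro p hp p' hp' h
      rw [Finset.mem_coe, Finset.mem_filter] at hp hp'
      have h1 := Prod.ext_iff.1 (hp.2.trans hp'.2.symm)
      have h : p.1 = p'.1 := h
      refine Prod.ext h (Prod.ext ?_ ?_)
      · have := h1.1
        simp only at this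
        rw [h] at this
        exact sub_left_injective this
      · have := h1.2
        simp only at this
        rw [h] at this
        exact sub_left_injective this
    rw [← Finset.card_image_of_injOn hinj]
    have h7 : (((T.filter fun p => (p.2.1 - p.1, p.2.2 - p.1) =
        (p₀.2.1 - p₀.1, p₀.2.2 - p₀.1)).image fun p => p.1 : Finset ℂ) : Set ℂ).encard ≤ 6 := by
      refine le_trans (Set.encard_le_encard ?_) h6
      intro b hb
      obtain ⟨p, hp, rfl⟩ := Finset.mem_image.1 (Finset.mem_coe.1 hb)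
      obtain ⟨hpT, hpe⟩ := Finset.mem_filter.1 hp
      have h1 := Finset.mem_product.1 (Finset.mem_filter.1 hpT).1
      have h2 := Finset.mem_product.1 h1.2
      have h3 : p.2.1 - p.1 = p₀.2.1 - p₀.1 ∧ p.2.2 - p.1 = p₀.2.2 - p₀.1 := Prod.ext_iff.1 hpe
      refine ⟨hF _ (hBF h1.1), fun i => ?_⟩
      have key : ∀ z : ℂ, s * Complex.exp z * Complex.exp p.1 = s * Complex.exp (p.1 + z) :=
        fun z => by rw [Complex.exp_add]; ring
      show Al θ (Complex.exp (s * Complex.exp (d i) * Complex.exp p.1))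
      rw [key]
      fin_cases i
      · show Al θ (Complex.exp (s * Complex.exp (p.1 + 0)))
        rw [add_zero]
        exact hB _ h1.1
      · show Al θ (Complex.exp (s * Complex.exp (p.1 + (p₀.2.1 - p₀.1))))
        rw [← h3.1]
        simp only [add_sub_cancel]
        exact hB _ h2.1
      · show Al θ (Complex.exp (s * Complex.exp (p.1 + (p₀.2.2 - p₀.1))))
        rw [← h3.2]
        simp only [add_sub_cancel]
        exact hB _ h2.2
    rw [Set.encard_coe_eq_coe_finsetCard] at h7
    exact_mod_cast h7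
  calc T.card ≤ 6 * (T.image fun p => (p.2.1 - p.1, p.2.2 - p.1)).card :=
        Finset.card_le_mul_card_image _ _ hfib
    _ ≤ 6 * (D ×ˢ D).card := Nat.mul_le_mul_left _ (Finset.card_le_card himg)
    _ = 6 * D.card ^ 2 := by rw [Finset.card_product, sq]

theorem cube_sub {n a : ℕ} (h : n * (n - 1) * (n - 2) ≤ a) : (n - 2) ^ 3 ≤ a := by
  refine le_trans ?_ h
  rcases n with _ | _ | n
  · simp
  · simp
  · have e1 : n + 1 + 1 - 2 = n := by omega
    have e2 : n + 1 + 1 - 1 = n + 1 := by omega
    rw [e1, e2]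
    nlinarith [Nat.zero_le n, Nat.zero_le (n ^ 2)]

/-- **Main result.** -/
theorem result :
    -- (1) three multipliers
    (∀ K : IntermediateField ℚ ℂ, Algebra.trdeg ℚ K ≤ 1 → ∀ y : Fin 3 → ℂ, LinearIndependent ℚ y →
      {δ : ℂ | Alg δ ∧ ∀ p, IsAlgebraic K (Complex.exp (y p * Complex.exp δ))}.encard ≤ 6) ∧
    -- (2) three shifts
    (∀ α : ℂ, Alg α → α ≠ 0 → ∀ β : Fin 3 → ℂ, (∀ i, Alg (β i)) → Function.Injective β →
      {δ : ℂ | Alg δ ∧ ¬ ∃ i, AlgebraicIndependent ℚ
        ![Complex.exp α, Complex.exp (Complex.exp (β i + δ))]}.encard ≤ 6) ∧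
    -- (3) finite sets
    (∀ K : IntermediateField ℚ ℂ, Algebra.trdeg ℚ K ≤ 1 → ∀ s : ℂ, s ≠ 0 → ∀ F B : Finset ℂ,
      (∀ β ∈ F, Alg β) → B ⊆ F → (∀ β ∈ B, IsAlgebraic K (Complex.exp (s * Complex.exp β))) →
      B.card * (B.card - 1) * (B.card - 2) ≤
        6 * ((F ×ˢ F).image fun p => p.2 - p.1).card ^ 2) ∧
    -- (4) pairs
    (∀ s s' : ℂ, s ≠ 0 → s' ≠ 0 → ∀ F : Finset ℂ, (∀ β ∈ F, Alg β) → ∀ P : Finset (ℂ × ℂ),
      P ⊆ F ×ˢ F → (∀ p ∈ P, ¬ AlgebraicIndependent ℚ ![Complex.exp (s * Complex.exp p.1),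
        Complex.exp (s' * Complex.exp p.2)]) →
      (P.card - 4 * F.card) ^ 3 ≤
        48 * F.card ^ 3 * ((F ×ˢ F).image fun p => p.2 - p.1).card ^ 2) := by
  classical
  refine ⟨three_field, ?_, ?_, ?_⟩
  · intro α hα hα0 β hβ hinj
    have hθ : Transcendental ℚ (Complex.exp α) := LW.transcendental_cexp α hα hα0
    refine le_trans (Set.encard_le_encard ?_) (three hθ _ (li_exp β hβ hinj))
    rintro δ ⟨h1, h2⟩
    push Not at h2
    refine ⟨h1, fun i => ?_⟩
    rw [← Complex.exp_add]
    exact Pool.Agent.Q258.TwoPar.dep_al hθ (h2 i)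
  · intro K hK s hs F B hF hBF hB
    obtain ⟨θ, hθ, hal⟩ := exists_theta K hK
    exact triples hθ hs F B hF hBF fun β hβ => al_trans hal (hB β hβ)
  · intro s s' hs hs' F hF P hP hdep
    set D := (F ×ˢ F).image fun p : ℂ × ℂ => p.2 - p.1 with hD
    rcases F.eq_empty_or_nonempty with hFe | hFne
    · have : P = ∅ := by
        rw [hFe, Finset.empty_product] at hP
        exact Finset.subset_empty.1 hP
      rw [this]
      simp
    let A := F.filter fun β => IsAlgebraic ℚ (Complex.exp (s * Complex.exp β))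
    have hA : (A.card - 2) ^ 3 ≤ 6 * D.card ^ 2 := by
      refine cube_sub (triples LW.transcendental_pi_complex hs F A hF
        (Finset.filter_subset _ _) fun β hβ => ?_)
      exact Pool.Agent.Q258.TwoPar.al_of_alg (Finset.mem_filter.1 hβ).2
    let P1 := P.filter fun p => IsAlgebraic ℚ (Complex.exp (s * Complex.exp p.1))
    let P2 := P.filter fun p => ¬ IsAlgebraic ℚ (Complex.exp (s * Complex.exp p.1))
    have hP12 : P.card = P1.card + P2.card :=
      (Finset.card_filter_add_card_filter_not (s := P)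
        (fun p => IsAlgebraic ℚ (Complex.exp (s * Complex.exp p.1)))).symm
    have h1 : P1.card ≤ A.card * F.card := by
      rw [← Finset.card_product]
      refine Finset.card_le_card fun p hp => ?_
      obtain ⟨h2, h3⟩ := Finset.mem_filter.1 hp
      have h4 := Finset.mem_product.1 (hP h2)
      exact Finset.mem_product.2 ⟨Finset.mem_filter.2 ⟨h4.1, h3⟩, h4.2⟩
    obtain ⟨b, hb, hmax⟩ := F.exists_max_image
      (fun m => (P2.filter fun p => p.1 = m).card) hFne
    have h2 : P2.card ≤ F.card * (P2.filter fun p => p.1 = b).card := by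
      rw [Finset.card_eq_sum_card_fiberwise (f := fun p => p.1) (t := F) (fun p hp => by
        have h3 := (Finset.mem_filter.1 (Finset.mem_coe.1 hp)).1
        exact (Finset.mem_product.1 (hP h3)).1)]
      refine (Finset.sum_le_card_nsmul _ _ _ hmax).trans ?_
      rw [smul_eq_mul]
    have h3 : ((P2.filter fun p => p.1 = b).card - 2) ^ 3 ≤ 6 * D.card ^ 2 := by
      rcases Finset.eq_empty_or_nonempty (P2.filter fun p => p.1 = b) with h | ⟨p₀, hp₀⟩
      · rw [h]
        simp
      obtain ⟨hp₀2, hp₀m⟩ := Finset.mem_filter.1 hp₀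
      have hu : Transcendental ℚ (Complex.exp (s * Complex.exp b)) := by
        have := (Finset.mem_filter.1 hp₀2).2
        rwa [hp₀m] at this
      have hinj : Set.InjOn (fun p : ℂ × ℂ => p.2)
          ((P2.filter fun p => p.1 = b) : Set (ℂ × ℂ)) := by
        intro p hp q hq h
        rw [Finset.mem_coe, Finset.mem_filter] at hp hq
        exact Prod.ext (hp.2.trans hq.2.symm) h
      rw [← Finset.card_image_of_injOn hinj]
      refine cube_sub (triples hu hs' F _ hF ?_ ?_)
      · intro m hm
        obtain ⟨p, hp, rfl⟩ := Finset.mem_image.1 hm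
        have h4 := (Finset.mem_filter.1 (Finset.mem_filter.1 hp).1).1
        exact (Finset.mem_product.1 (hP h4)).2
      · intro m hm
        obtain ⟨p, hp, rfl⟩ := Finset.mem_image.1 hm
        obtain ⟨hp2, hpm⟩ := Finset.mem_filter.1 hp
        have h4 := hdep p (Finset.mem_filter.1 hp2).1
        rw [hpm] at h4
        exact Pool.Agent.Q258.TwoPar.dep_al hu h4
    set n := F.card
    set a := A.card
    set c := (P2.filter fun p => p.1 = b).card
    have h4 : P.card - 4 * n ≤ n * (a - 2) + n * (c - 2) := by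
      have h5 : P.card ≤ n * a + n * c := by
        rw [hP12, Nat.mul_comm n a]
        exact Nat.add_le_add h1 h2
      have h6 : n * a ≤ n * (a - 2) + 2 * n := by
        rcases Nat.lt_or_ge a 2 with h | h
        · have : n * a ≤ n * 2 := Nat.mul_le_mul_left _ h.le
          omega
        · obtain ⟨k, hk⟩ : ∃ k, a = k + 2 := ⟨a - 2, by omega⟩
          rw [hk, Nat.add_sub_cancel]
          nlinarith
      have h7 : n * c ≤ n * (c - 2) + 2 * n := by
        rcases Nat.lt_or_ge c 2 with h | h
        · have : n * c ≤ n * 2 := Nat.mul_le_mul_left _ h.le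
          omega
        · obtain ⟨k, hk⟩ : ∃ k, c = k + 2 := ⟨c - 2, by omega⟩
          rw [hk, Nat.add_sub_cancel]
          nlinarith
      omega
    calc (P.card - 4 * n) ^ 3 ≤ (n * (a - 2) + n * (c - 2)) ^ 3 := Nat.pow_le_pow_left h4 3
      _ ≤ 4 * (n * (a - 2)) ^ 3 + 4 * (n * (c - 2)) ^ 3 := Pool.Agent.Q147.TG.cube_add _ _
      _ = 4 * n ^ 3 * ((a - 2) ^ 3) + 4 * n ^ 3 * ((c - 2) ^ 3) := by ring
      _ ≤ 4 * n ^ 3 * (6 * D.card ^ 2) + 4 * n ^ 3 * (6 * D.card ^ 2) :=
          Nat.add_le_add (Nat.mul_le_mul_left _ hA) (Nat.mul_le_mul_left _ h3)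
      _ = 48 * n ^ 3 * D.card ^ 2 := by ring

end Pool.Agent.Results.MP_58ae59_nt.AlgebraicShifts
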