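import Pool.Agent.Q138.PS.WY
import Pool.Agent.Q138.AI.R58ae59

/-!
# `e` and `e ^ (e ^ r)` for all rational numbers `r` which are close to a given real number

`e ^ e` is the case `r = 1`.

(1) There is ONE set `Z` of real numbers of Hausdorff dimension at most `3 / (2 θ)` (`θ > 0`; `3 / 4` for `θ = 2`) such that for every
real number `z` outside `Z`, ALL nonzero algebraic numbers `α`, `β` and all `b`, for all but finitely many of the rational numbers `r` with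
`|z - r| ≤ b · den(r) ^ (-θ)` the numbers `e ^ α` and `e ^ (β e ^ (r α))` are algebraically independent over `ℚ`. In particular `e` and
`e ^ (e ^ r)` are algebraically independent, for all but finitely many of the rational approximations `r` of `z`, of which there are
infinitely many for `θ = 2`, `b = 1` and irrational `z`.

(2) Let `t_j` and `y_j ≠ 0` (`j ∈ ℕ`) be complex numbers, `e ^ (t_j)` transcendental, `Y` a metric space, and `p_j` ANY map from `ℚ` to `Y`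
(for instance the inclusion of `ℚ` in `ℝ` or in `ℚ_ℓ`). There is a set `Z ⊆ Y` of dimension at most `3 / (2 θ)` such that for `z ∈ Y`
outside `Z`, all `j` and `b`, for all but finitely many rational `r` with `dist (p_j(r), z) ≤ b H(r) ^ (-θ)` the numbers `e ^ (t_j)`
and `e ^ (y_j e ^ (r t_j))` are algebraically independent.

(3) Progressions. Now let `p_{j, d}` be any map from `ℤ` to `Y`, for rational `d ≠ 0`. There is a set `Z ⊆ Y` of dimension at most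
`1 / (2 θ)` such that for `z` outside `Z`, all `j`, `d` and `b`, for all but finitely many integers `n` with
`dist (p_{j, d}(n), z) ≤ b |n| ^ (-θ)` the numbers `e ^ (t_j)` and `e ^ (y_j e ^ (n d t_j))` are algebraically independent.

The proof uses that every progression of `2 H + 1` rational numbers contains at most `8 √H` exceptional ones (helper258's theorem
LinesOfTowers), which gives at most `8 H ^ (3 / 2)` exceptional rational numbers of height at most `H`.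
-/

set_option autoImplicit false

namespace Pool.Agent.Results.MP_58ae59_nt.TowersNearGivenPoints

open Pool.Agent.Q138.PS Pointwise

/-- the height of a rational number -/
def hgt (r : ℚ) : ℕ := max r.num.natAbs r.den

/-- `e ^ t` and `e ^ (y e ^ (r t))` are algebraically dependent over `ℚ`. -/
def Dependent (t y : ℂ) (r : ℚ) : Prop :=
  ¬ AlgebraicIndependent ℚ ![Complex.exp t, Complex.exp (y * Complex.exp (r * t))]

/-- few elements on lines -/
theorem line (S : Set ℚ) (hS : ∀ X W : Finset ℚ, (W : Set ℚ) ⊆ S → X.card * W.card ≤ (X + W).card + 2 * (X.card * (X.card - 1)))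
    (d : ℚ) (hd : d ≠ 0) (H : ℕ) (W : Finset ℚ) (hW : (W : Set ℚ) ⊆ S)
    (hW2 : W ⊆ (Finset.Icc (-(H : ℤ)) H).image fun a : ℤ => (a : ℚ) * d) : W.card ≤ 4 * (Nat.sqrt H + 1) := by
  set k : ℕ := Nat.sqrt H + 1 with hk
  have hHk : H < k * k := Nat.lt_succ_sqrt H
  have hk1 : 1 ≤ k := by omega
  set X : Finset ℚ := (Finset.range k).image fun i : ℕ => (i : ℚ) * d with hX
  have hXc : X.card = k := by
    rw [hX, Finset.card_image_of_injective _ (fun i j h => by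
      have h1 := mul_right_cancel₀ hd h
      exact_mod_cast h1), Finset.card_range]
  have h1 := hS X W hW
  have h2 : X + W ⊆ (Finset.Icc (-(H : ℤ)) (H + k - 1)).image fun a : ℤ => (a : ℚ) * d := by
    intro x hx
    obtain ⟨u, hu, w, hw, rfl⟩ := Finset.mem_add.1 hx
    obtain ⟨i, hi, rfl⟩ := Finset.mem_image.1 hu
    obtain ⟨a, ha, rfl⟩ := Finset.mem_image.1 (hW2 hw)
    rw [Finset.mem_range] at hi
    rw [Finset.mem_Icc] at ha
    refine Finset.mem_image.2 ⟨(i : ℤ) + a, ?_, ?_⟩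
    · rw [Finset.mem_Icc]
      omega
    · push_cast
      ring
  have h3 : (X + W).card ≤ 2 * H + k := by
    refine (Finset.card_le_card h2).trans (Finset.card_image_le.trans ?_)
    rw [Int.card_Icc]
    omega
  rw [hXc] at h1
  have h4 : k * W.card ≤ 2 * H + k + 2 * (k * (k - 1)) := h1.trans (Nat.add_le_add_right h3 _)
  obtain ⟨l, hl⟩ : ∃ l, k = l + 1 := ⟨k - 1, by omega⟩
  rw [hl] at h4 hHk ⊢
  have h5 : l + 1 - 1 = l := by omega
  rw [h5] at h4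
  by_contra hcon
  push Not at hcon
  have h6 : (l + 1) * (4 * (l + 1) + 1) ≤ (l + 1) * W.card := Nat.mul_le_mul_left _ hcon
  nlinarith

/-- few rational numbers -/
theorem rationals (S : Set ℚ)
    (hS : ∀ X W : Finset ℚ, (W : Set ℚ) ⊆ S → X.card * W.card ≤ (X + W).card + 2 * (X.card * (X.card - 1)))
    (H : ℕ) (hH : 1 ≤ H) : {r | hgt r ≤ H ∧ r ∈ S}.Finite ∧ {r | hgt r ≤ H ∧ r ∈ S}.ncard ^ 2 ≤ 64 * H ^ 3 := by
  classical
  set W : ℕ → Finset ℚ := fun b => ((Finset.Icc (-(H : ℤ)) H).image fun a : ℤ => (a : ℚ) * (1 / (b : ℚ))).filter (· ∈ S)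
    with hW
  have hsub : {r | hgt r ≤ H ∧ r ∈ S} ⊆ (((Finset.Icc 1 H).biUnion W : Finset ℚ) : Set ℚ) := by
    rintro r ⟨h1, h2⟩
    rw [Finset.mem_coe, Finset.mem_biUnion]
    have h3 : r.num.natAbs ≤ H := (le_max_left _ _).trans h1
    have h4 : r.den ≤ H := (le_max_right _ _).trans h1
    refine ⟨r.den, Finset.mem_Icc.2 ⟨r.den_pos, h4⟩, Finset.mem_filter.2 ⟨Finset.mem_image.2 ⟨r.num, ?_, ?_⟩, h2⟩⟩
    · rw [Finset.mem_Icc]
      omega
    · rw [mul_one_div]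
      exact Rat.num_div_den r
  have hcard : ((Finset.Icc 1 H).biUnion W).card ≤ H * (4 * (Nat.sqrt H + 1)) := by
    refine Finset.card_biUnion_le.trans ?_
    calc ∑ b ∈ Finset.Icc 1 H, (W b).card ≤ ∑ _b ∈ Finset.Icc 1 H, 4 * (Nat.sqrt H + 1) := by
          refine Finset.sum_le_sum fun b hb => ?_
          have hb1 := (Finset.mem_Icc.1 hb).1
          refine line S hS (1 / (b : ℚ)) (by positivity) H (W b) ?_ (Finset.filter_subset _ _)
          intro x hx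
          exact (Finset.mem_filter.1 (Finset.mem_coe.1 hx)).2
      _ = H * (4 * (Nat.sqrt H + 1)) := by
          rw [Finset.sum_const, Nat.card_Icc, smul_eq_mul]
          simp
  refine ⟨(Finset.finite_toSet _).subset hsub, ?_⟩
  have h1 : {r | hgt r ≤ H ∧ r ∈ S}.ncard ≤ H * (4 * (Nat.sqrt H + 1)) := by
    refine le_trans ?_ hcard
    rw [← Set.ncard_coe_finset]
    exact Set.ncard_le_ncard hsub (Finset.finite_toSet _)
  have h2 : Nat.sqrt H * Nat.sqrt H ≤ H := Nat.sqrt_le H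
  have h3 : 1 ≤ Nat.sqrt H := Nat.sqrt_pos.2 hH
  have h4 : (Nat.sqrt H + 1) ^ 2 ≤ 4 * H := by nlinarith
  calc {r | hgt r ≤ H ∧ r ∈ S}.ncard ^ 2 ≤ (H * (4 * (Nat.sqrt H + 1))) ^ 2 := Nat.pow_le_pow_left h1 2
    _ = 16 * H ^ 2 * (Nat.sqrt H + 1) ^ 2 := by ring
    _ ≤ 16 * H ^ 2 * (4 * H) := Nat.mul_le_mul_left _ h4
    _ = 64 * H ^ 3 := by ring

/-- few multiples -/
theorem multiples (S : Set ℚ)
    (hS : ∀ X W : Finset ℚ, (W : Set ℚ) ⊆ S → X.card * W.card ≤ (X + W).card + 2 * (X.card * (X.card - 1)))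
    (d : ℚ) (hd : d ≠ 0) (H : ℕ) (hH : 1 ≤ H) : {n : ℤ | n.natAbs ≤ H ∧ n ∈ {n : ℤ | (n : ℚ) * d ∈ S}}.Finite ∧
      {n : ℤ | n.natAbs ≤ H ∧ n ∈ {n : ℤ | (n : ℚ) * d ∈ S}}.ncard ^ 2 ≤ 64 * H ^ 1 := by
  classical
  set W : Finset ℤ := (Finset.Icc (-(H : ℤ)) H).filter fun n => (n : ℚ) * d ∈ S with hW
  have hinj : Function.Injective fun a : ℤ => (a : ℚ) * d := fun i j h => by
    have h1 := mul_right_cancel₀ hd h
    exact_mod_cast h1
  have e : {n : ℤ | n.natAbs ≤ H ∧ n ∈ {n : ℤ | (n : ℚ) * d ∈ S}} = (W : Set ℤ) := by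
    ext n
    simp only [hW, Finset.coe_filter, Finset.mem_Icc]
    refine and_congr ?_ Iff.rfl
    constructor
    · intro h; omega
    · intro h; omega
  rw [e]
  refine ⟨Finset.finite_toSet _, ?_⟩
  have h1 : (W : Set ℤ).ncard ≤ 4 * (Nat.sqrt H + 1) := by
    rw [Set.ncard_coe_finset, ← Finset.card_image_of_injective W hinj]
    refine line S hS d hd H _ ?_ (Finset.image_subset_image (Finset.filter_subset _ _))
    intro x hx
    obtain ⟨n, hn, rfl⟩ := Finset.mem_image.1 (Finset.mem_coe.1 hx)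
    exact (Finset.mem_filter.1 hn).2
  have h2 : Nat.sqrt H * Nat.sqrt H ≤ H := Nat.sqrt_le H
  have h3 : 1 ≤ Nat.sqrt H := Nat.sqrt_pos.2 hH
  calc (W : Set ℤ).ncard ^ 2 ≤ (4 * (Nat.sqrt H + 1)) ^ 2 := Nat.pow_le_pow_left h1 2
    _ ≤ 64 * H ^ 1 := by nlinarith

theorem sumset (t y : ℂ) (ht : Transcendental ℚ (Complex.exp t)) (hy : y ≠ 0) (X W : Finset ℚ)
    (hW : (W : Set ℚ) ⊆ {r | Dependent t y r}) : X.card * W.card ≤ (X + W).card + 2 * (X.card * (X.card - 1)) :=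
  (Pool.Agent.Q138.AI.R58ae59.result.2.1 t y ht hy).1 X W hW

theorem near {J : Type} [Countable J] (t y : J → ℂ) (ht : ∀ j, Transcendental ℚ (Complex.exp (t j))) (hy : ∀ j, y j ≠ 0)
    (Y : Type) [MetricSpace Y] [MeasurableSpace Y] [BorelSpace Y] (p : J → ℚ → Y) (θ : ℝ) (hθ : 0 < θ) :
    ∃ Z : Set Y, dimH Z ≤ ENNReal.ofReal (3 / (2 * θ)) ∧ ∀ z, z ∉ Z → ∀ (j : J) (b : ℝ),
      {r | r ∈ {r | Dependent (t j) (y j) r} ∧ dist (p j r) z ≤ b * (max 1 (hgt r : ℝ)) ^ (-θ)}.Finite :=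
  fin_pow_seq (J := J) (A := fun _ => ℚ) p (fun j => {r | Dependent (t j) (y j) r}) (fun _ => hgt) (fun _ => 2) (fun _ => 3)
    (fun _ => by norm_num) (fun _ => θ) (fun _ => hθ)
    (fun j => ⟨64, fun H hH => rationals _ (sumset (t j) (y j) (ht j) (hy j)) H hH⟩) _
    (fun j => le_of_eq (by push_cast; field_simp))

theorem one_le_hgt (r : ℚ) : (1 : ℝ) ≤ hgt r := by
  have : 1 ≤ hgt r := r.den_pos.trans_le (le_max_right _ _)
  exact_mod_cast this

/-- a rational number close to `z` has a height comparable to its denominator -/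
theorem close (z b θ : ℝ) (hθ : 0 < θ) : ∃ b' : ℝ, ∀ r : ℚ, |z - r| ≤ b * (r.den : ℝ) ^ (-θ) →
    dist (r : ℝ) z ≤ b' * (max 1 (hgt r : ℝ)) ^ (-θ) := by
  refine ⟨|b| * (|z| + |b| + 1) ^ θ, fun r hr => ?_⟩
  have hd : (1 : ℝ) ≤ r.den := by exact_mod_cast r.den_pos
  have hd0 : (0 : ℝ) < r.den := by linarith
  have h1 : |z - r| ≤ |b| * (r.den : ℝ) ^ (-θ) := hr.trans (mul_le_mul_of_nonneg_right (le_abs_self b) (by positivity))
  have h2 : |z - r| ≤ |b| := by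
    refine h1.trans ?_
    have : (r.den : ℝ) ^ (-θ) ≤ 1 := Real.rpow_le_one_of_one_le_of_nonpos hd (by linarith)
    nlinarith [abs_nonneg b]
  have h3 : |(r : ℝ)| ≤ |z| + |b| := by
    have : (r : ℝ) = z - (z - r) := by ring
    rw [this]
    exact (abs_sub _ _).trans (by linarith)
  have h4 : (hgt r : ℝ) ≤ (|z| + |b| + 1) * r.den := by
    unfold hgt
    rw [Nat.cast_max]
    refine max_le ?_ (by nlinarith [abs_nonneg z, abs_nonneg b])
    have h5 : ((r.num.natAbs : ℕ) : ℝ) = |(r : ℝ)| * r.den := by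
      have h6 : (r : ℝ) = r.num / r.den := by exact_mod_cast (Rat.num_div_den r).symm
      rw [h6, abs_div, abs_of_pos hd0, div_mul_cancel₀ _ hd0.ne', Nat.cast_natAbs, Int.cast_abs]
    rw [h5]
    exact mul_le_mul_of_nonneg_right (by linarith) hd0.le
  have h7 : (0 : ℝ) < hgt r := by linarith [one_le_hgt r]
  rw [dist_comm, Real.dist_eq, max_eq_right (one_le_hgt r)]
  refine h1.trans ?_
  rw [mul_assoc]
  refine mul_le_mul_of_nonneg_left ?_ (abs_nonneg b)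
  have h8 : ((|z| + |b| + 1) * (r.den : ℝ)) ^ (-θ) ≤ (hgt r : ℝ) ^ (-θ) :=
    Real.rpow_le_rpow_of_nonpos h7 h4 (by linarith)
  calc (r.den : ℝ) ^ (-θ) = (|z| + |b| + 1) ^ θ * ((|z| + |b| + 1) * (r.den : ℝ)) ^ (-θ) := by
        rw [Real.mul_rpow (by positivity) hd0.le, ← mul_assoc, ← Real.rpow_add (by positivity), add_neg_cancel,
          Real.rpow_zero, one_mul]
    _ ≤ (|z| + |b| + 1) ^ θ * (hgt r : ℝ) ^ (-θ) := mul_le_mul_of_nonneg_left h8 (by positivity)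

/-- **Theorem.** -/
theorem result :
    (∀ θ : ℝ, 0 < θ → ∃ Z : Set ℝ, dimH Z ≤ ENNReal.ofReal (3 / (2 * θ)) ∧ ∀ z, z ∉ Z → ∀ α β : ℂ,
      IsAlgebraic ℚ α → IsAlgebraic ℚ β → α ≠ 0 → β ≠ 0 → ∀ b : ℝ,
        {r : ℚ | |z - r| ≤ b * (r.den : ℝ) ^ (-θ) ∧ Dependent α β r}.Finite) ∧
    (∀ t y : ℕ → ℂ, (∀ j, Transcendental ℚ (Complex.exp (t j))) → (∀ j, y j ≠ 0) →
      ∀ (Y : Type) [MetricSpace Y] [MeasurableSpace Y] [BorelSpace Y] (p : ℕ → ℚ → Y) (θ : ℝ), 0 < θ →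
      ∃ Z : Set Y, dimH Z ≤ ENNReal.ofReal (3 / (2 * θ)) ∧ ∀ z, z ∉ Z → ∀ (j : ℕ) (b : ℝ),
        {r : ℚ | dist (p j r) z ≤ b * (hgt r : ℝ) ^ (-θ) ∧ Dependent (t j) (y j) r}.Finite) ∧
    (∀ t y : ℕ → ℂ, (∀ j, Transcendental ℚ (Complex.exp (t j))) → (∀ j, y j ≠ 0) →
      ∀ (Y : Type) [MetricSpace Y] [MeasurableSpace Y] [BorelSpace Y] (p : ℕ → ℚ → ℤ → Y) (θ : ℝ), 0 < θ →
      ∃ Z : Set Y, dimH Z ≤ ENNReal.ofReal (1 / (2 * θ)) ∧ ∀ z, z ∉ Z → ∀ (j : ℕ) (d : ℚ), d ≠ 0 → ∀ b : ℝ,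
        {n : ℤ | dist (p j d n) z ≤ b * (max 1 (n.natAbs : ℝ)) ^ (-θ) ∧ Dependent (t j) (y j) (n * d)}.Finite) := by
  refine ⟨fun θ hθ => ?_, fun t y ht hy Y _ _ _ p θ hθ => ?_, fun t y ht hy Y _ _ _ p θ hθ => ?_⟩
  · have hc : Countable {x : ℂ // IsAlgebraic ℚ x ∧ x ≠ 0} :=
      ((Algebraic.countable ℚ ℂ).mono fun x hx => hx.1 : {x : ℂ | IsAlgebraic ℚ x ∧ x ≠ 0}.Countable).to_subtype
    obtain ⟨Z, hZ, hz⟩ := near (J := {x : ℂ // IsAlgebraic ℚ x ∧ x ≠ 0} × {x : ℂ // IsAlgebraic ℚ x ∧ x ≠ 0})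
      (fun j => j.1.1) (fun j => j.2.1) (fun j => Pool.Agent.H340R2.LW.transcendental_cexp j.1.1 j.1.2.1 j.1.2.2)
      (fun j => j.2.2.2) ℝ (fun _ r => (r : ℝ)) θ hθ
    refine ⟨Z, hZ, fun z hzZ α β hα hβ hα0 hβ0 b => ?_⟩
    obtain ⟨b', hb'⟩ := close z b θ hθ
    refine (hz z hzZ (⟨α, hα, hα0⟩, ⟨β, hβ, hβ0⟩) b').subset ?_
    rintro r ⟨h1, h2⟩
    exact ⟨h2, hb' r h1⟩
  · obtain ⟨Z, hZ, hz⟩ := near t y ht hy Y p θ hθ
    refine ⟨Z, hZ, fun z hzZ j b => (hz z hzZ j b).subset ?_⟩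
    rintro r ⟨h1, h2⟩
    refine ⟨h2, ?_⟩
    rw [max_eq_right (one_le_hgt r)]
    exact h1
  · obtain ⟨Z, hZ, hz⟩ := fin_pow_seq (J := ℕ × {d : ℚ // d ≠ 0}) (A := fun _ => ℤ) (fun j => p j.1 j.2.1)
      (fun j => {n : ℤ | (n : ℚ) * j.2.1 ∈ {r | Dependent (t j.1) (y j.1) r}}) (fun _ => Int.natAbs) (fun _ => 2)
      (fun _ => 1) (fun _ => by norm_num) (fun _ => θ) (fun _ => hθ)
      (fun j => ⟨64, fun H hH => multiples _ (sumset (t j.1) (y j.1) (ht j.1) (hy j.1)) j.2.1 j.2.2 H hH⟩) (1 / (2 * θ))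
      (fun j => le_of_eq (by push_cast; field_simp))
    refine ⟨Z, hZ, fun z hzZ j d hd b => (hz z hzZ (j, ⟨d, hd⟩) b).subset ?_⟩
    rintro n ⟨h1, h2⟩
    exact ⟨h2, h1⟩

end Pool.Agent.Results.MP_58ae59_nt.TowersNearGivenPoints
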