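import Pool.Agent.Q138.PS.XV
import Pool.Agent.Q138.AI.R58ae59

/-!
# The numbers `e ^ (b e ^ (m a))` for the integers `m` near the powers of real numbers

Let `t_i`, `y_i` (`i` in a countable set) be complex numbers, `e ^ (t_i)` transcendental and `y_i ≠ 0`; for instance all pairs of
nonzero algebraic numbers. Let `l < 1 / 2`. There is a set `E` of real numbers of Hausdorff dimension at most `1 / (2 (1 - l))` such
that for every real number `α > 1` outside `E`, all `i`, all rational `d ≠ 0`, all real algebraic `c > 0`, all integers `j`, all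
real `D` and all large `n`, for EVERY integer `m ≥ 1` with `|m - c n ^ j α ^ n| ≤ D (c n ^ j α ^ n) ^ l` the numbers `e ^ (t_i)` and
`e ^ (y_i e ^ (m d t_i))` are algebraically independent over `ℚ`. For instance `e` and `e ^ (e ^ m)` for all these `m`.

The proof uses helper258's theorem LinesOfTowers, by which every progression of `2 H + 1` rational numbers contains at most `8 √H`
exceptional ones.
-/

set_option autoImplicit false

namespace Pool.Agent.Results.MP_58ae59_nt.TowersNearPowers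

open Filter Topology Pointwise
open Pool.Agent.Q138.PS

/-- `e ^ t` and `e ^ (y e ^ (r t))` are algebraically dependent over `ℚ`. -/
def Dependent (t y : ℂ) (r : ℚ) : Prop :=
  ¬ AlgebraicIndependent ℚ ![Complex.exp t, Complex.exp (y * Complex.exp (r * t))]

/-- few elements on lines -/
theorem line (S : Set ℚ) (hS : ∀ X W : Finset ℚ, (W : Set ℚ) ⊆ S → X.card * W.card ≤ (X + W).card + 2 * (X.card * (X.card - 1)))
    (d : ℚ) (hd : d ≠ 0) (H : ℕ) (W : Finset ℚ) (hW : (W : Set ℚ) ⊆ S)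
    (hW2 : W ⊆ (Finset.Icc (-(H : ℤ)) H).image fun a : ℤ => (a : ℚ) * d) : W.card ≤ 4 * (Nat.sqrt H + 1) := by
  set k : ℕ := Nat.sqrt H + 1 with hk
  have hHk : H < k * k := Nat.lt_succ_sqrt H
  have hk1 : 1 ≤ k := by omega
  set X : Finset ℚ := (Finset.range k).image fun i : ℕ => (i : ℚ) * d with hX
  have hXc : X.card = k := by
    rw [hX, Finset.card_image_of_injective _ (fun i j h => by
      have h1 := mul_right_cancel₀ hd h
      exact_mod_cast h1), Finset.card_range]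
  have h1 := hS X W hW
  have h2 : X + W ⊆ (Finset.Icc (-(H : ℤ)) (H + k - 1)).image fun a : ℤ => (a : ℚ) * d := by
    intro x hx
    obtain ⟨u, hu, w, hw, rfl⟩ := Finset.mem_add.1 hx
    obtain ⟨i, hi, rfl⟩ := Finset.mem_image.1 hu
    obtain ⟨a, ha, rfl⟩ := Finset.mem_image.1 (hW2 hw)
    rw [Finset.mem_range] at hi
    rw [Finset.mem_Icc] at ha
    refine Finset.mem_image.2 ⟨(i : ℤ) + a, ?_, ?_⟩
    · rw [Finset.mem_Icc]
      omega
    · push_cast
      ring
  have h3 : (X + W).card ≤ 2 * H + k := by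
    refine (Finset.card_le_card h2).trans (Finset.card_image_le.trans ?_)
    rw [Int.card_Icc]
    omega
  rw [hXc] at h1
  have h4 : k * W.card ≤ 2 * H + k + 2 * (k * (k - 1)) := h1.trans (Nat.add_le_add_right h3 _)
  obtain ⟨l, hl⟩ : ∃ l, k = l + 1 := ⟨k - 1, by omega⟩
  rw [hl] at h4 hHk ⊢
  have h5 : l + 1 - 1 = l := by omega
  rw [h5] at h4
  by_contra hcon
  push Not at hcon
  have h6 : (l + 1) * (4 * (l + 1) + 1) ≤ (l + 1) * W.card := Nat.mul_le_mul_left _ hcon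
  nlinarith

/-- few rational numbers -/
theorem multiples (S : Set ℚ)
    (hS : ∀ X W : Finset ℚ, (W : Set ℚ) ⊆ S → X.card * W.card ≤ (X + W).card + 2 * (X.card * (X.card - 1)))
    (d : ℚ) (hd : d ≠ 0) (H : ℕ) (hH : 1 ≤ H) : {n : ℤ | n.natAbs ≤ H ∧ n ∈ {n : ℤ | (n : ℚ) * d ∈ S}}.Finite ∧
      {n : ℤ | n.natAbs ≤ H ∧ n ∈ {n : ℤ | (n : ℚ) * d ∈ S}}.ncard ^ 2 ≤ 64 * H ^ 1 := by
  classical
  set W : Finset ℤ := (Finset.Icc (-(H : ℤ)) H).filter fun n => (n : ℚ) * d ∈ S with hW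
  have hinj : Function.Injective fun a : ℤ => (a : ℚ) * d := fun i j h => by
    have h1 := mul_right_cancel₀ hd h
    exact_mod_cast h1
  have e : {n : ℤ | n.natAbs ≤ H ∧ n ∈ {n : ℤ | (n : ℚ) * d ∈ S}} = (W : Set ℤ) := by
    ext n
    simp only [hW, Finset.coe_filter, Finset.mem_Icc]
    refine and_congr ?_ Iff.rfl
    constructor
    · intro h; omega
    · intro h; omega
  rw [e]
  refine ⟨Finset.finite_toSet _, ?_⟩
  have h1 : (W : Set ℤ).ncard ≤ 4 * (Nat.sqrt H + 1) := by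
    rw [Set.ncard_coe_finset, ← Finset.card_image_of_injective W hinj]
    refine line S hS d hd H _ ?_ (Finset.image_subset_image (Finset.filter_subset _ _))
    intro x hx
    obtain ⟨n, hn, rfl⟩ := Finset.mem_image.1 (Finset.mem_coe.1 hx)
    exact (Finset.mem_filter.1 hn).2
  have h2 : Nat.sqrt H * Nat.sqrt H ≤ H := Nat.sqrt_le H
  have h3 : 1 ≤ Nat.sqrt H := Nat.sqrt_pos.2 hH
  calc (W : Set ℤ).ncard ^ 2 ≤ (4 * (Nat.sqrt H + 1)) ^ 2 := Nat.pow_le_pow_left h1 2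
    _ ≤ 64 * H ^ 1 := by nlinarith

theorem sumset (t y : ℂ) (ht : Transcendental ℚ (Complex.exp t)) (hy : y ≠ 0) (X W : Finset ℚ)
    (hW : (W : Set ℚ) ⊆ {r | Dependent t y r}) : X.card * W.card ≤ (X + W).card + 2 * (X.card * (X.card - 1)) :=
  (Pool.Agent.Q138.AI.R58ae59.result.2.1 t y ht hy).1 X W hW

theorem few (t y : ℂ) (ht : Transcendental ℚ (Complex.exp t)) (hy : y ≠ 0) (d : ℚ) (hd : d ≠ 0) :
    ∃ C : ℝ, ∀ Y : ℕ, 1 ≤ Y → cn (fun m => Dependent t y (m * d)) Y ≤ C * (Y : ℝ) ^ ((1 : ℝ) / 2) := by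
  have h0 := cn_root (X := fun m => Dependent t y (m * d)) (C := 64) (p := 1) (q := 2) (by norm_num) (fun Y hY => by
    obtain ⟨h1, h2⟩ := multiples {r | Dependent t y r} (sumset t y ht hy) d hd Y hY
    refine le_trans (Nat.pow_le_pow_left ?_ 2) h2
    refine Set.ncard_le_ncard_of_injOn (fun m : ℕ => (m : ℤ)) ?_ ?_ h1
    · rintro m ⟨h3, h4, h5⟩
      refine ⟨by simpa using h4, ?_⟩
      simpa using h5
    · intro a _ b _ hab
      exact Int.natCast_inj.1 hab)
  refine ⟨((64 : ℕ) : ℝ) ^ (1 / ((2 : ℕ) : ℝ)), fun Y hY => (h0 Y hY).trans (le_of_eq ?_)⟩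
  push_cast
  rfl

/-- **Theorem.** -/
theorem result {ι : Type} [Countable ι] (t y : ι → ℂ) (ht : ∀ i, Transcendental ℚ (Complex.exp (t i))) (hy : ∀ i, y i ≠ 0)
    (l : ℝ) (hl : l < 1) :
    ∃ E : Set ℝ, dimH E ≤ ENNReal.ofReal (1 / 2 / (1 - l)) ∧ ∀ α : ℝ, 1 < α → α ∉ E → ∀ (i : ι) (d : ℚ), d ≠ 0 →
      ∀ c : ℝ, 0 < c → IsAlgebraic ℚ c → ∀ (j : ℤ) (D : ℝ), ∀ᶠ n : ℕ in atTop, ∀ m : ℕ, 1 ≤ m → NearPow α c j D l n m →
        AlgebraicIndependent ℚ ![Complex.exp (t i), Complex.exp (y i * Complex.exp (m * d * t i))] := by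
  obtain ⟨E, hE, hg⟩ := pow_cn (ι := ι × {d : ℚ // d ≠ 0}) (fun i m => Dependent (t i.1) (y i.1) (m * i.2.1)) (1 / 2) l
    (by norm_num) hl (fun i => few (t i.1) (y i.1) (ht i.1) (hy i.1) i.2.1 i.2.2)
  refine ⟨E, hE, fun α hα hαE i d hd c hc hca j D => ?_⟩
  filter_upwards [hg α hα hαE (i, ⟨d, hd⟩) c hc hca j D] with n hn m hm hnear
  have h1 := not_not.1 (hn m hm hnear)
  push_cast at h1
  exact h1

end Pool.Agent.Results.MP_58ae59_nt.TowersNearPowers
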